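import Pool.Agent.D0H86.RF.Tab

set_option autoImplicit false

namespace Pool.Agent.D0H86.RF

theorem b8 : st (nat_lit 8) = true := by decide +kernel

end Pool.Agent.D0H86.RF
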