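import Pool.Agent.D0H86.RF.Fct
import Pool.Agent.D0H86.RF.B0
import Pool.Agent.D0H86.RF.B1
import Pool.Agent.D0H86.RF.B2
import Pool.Agent.D0H86.RF.B3
import Pool.Agent.D0H86.RF.B5
import Pool.Agent.D0H86.RF.B6
import Pool.Agent.D0H86.RF.B7
import Pool.Agent.D0H86.RF.B8
import Pool.Agent.D0H86.RF.B9
import Pool.Agent.D0H86.RF.B10
import Pool.Agent.D0H86.RF.B11

/-!
# Every polygon through the twelve points without crossings has at least four right turns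
-/

set_option autoImplicit false
set_option linter.all false

namespace Pool.Agent.D0H86.RF

/-- No two edges of the closed polygon `σ` cross. -/
def NC (σ : Fin 12 → Fin 12) : Prop := ∀ i j : Fin 12, i ≠ j →
  ¬ (D (σ i) (σ (i + 1)) (σ j) * D (σ i) (σ (i + 1)) (σ (j + 1)) < 0 ∧
    D (σ j) (σ (j + 1)) (σ i) * D (σ j) (σ (j + 1)) (σ (i + 1)) < 0)

theorem st_all : ∀ a : Fin 12, a ≠ 4 → st a = true := by
  intro a ha
  have h : a = 0 ∨ a = 1 ∨ a = 2 ∨ a = 3 ∨ a = 5 ∨ a = 6 ∨ a = 7 ∨ a = 8 ∨ a = 9 ∨ a = 10 ∨ a = 11 := by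
    revert ha
    revert a
    decide
  rcases h with rfl | rfl | rfl | rfl | rfl | rfl | rfl | rfl | rfl | rfl | rfl
  · exact b0
  · exact b1
  · exact b2
  · exact b3
  · exact b5
  · exact b6
  · exact b7
  · exact b8
  · exact b9
  · exact b10
  · exact b11

theorem st_eq (a : ℕ) : st a = loop 4 a 200 (2 ^ a) 4 (YR 4) (TR 4)
    0xffffffffffffffffffffffffffffffffffff 0 11 := rfl

theorem ones (k : ℕ) (hk : k < 144) :
    (0xffffffffffffffffffffffffffffffffffff : ℕ).testBit k = true := by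
  rw [show (0xffffffffffffffffffffffffffffffffffff : ℕ) = 2 ^ 144 - 1 by norm_num,
    Nat.testBit_two_pow_sub_one]
  simpa using hk

theorem sum12 (f : Fin 12 → ℕ) : ∑ i, f i = f 1 + (f 2 + (f 3 + (f 4 + (f 5 + (f 6 + (f 7 +
    (f 8 + (f 9 + (f 10 + (f 11 + f 0)))))))))) := by
  simp only [Fin.sum_univ_succ, Finset.univ_eq_empty, Finset.sum_empty]
  have e : ∀ i : Fin 12, f i = f i := fun _ => rfl
  show f 0 + (f 1 + (f 2 + (f 3 + (f 4 + (f 5 + (f 6 + (f 7 + (f 8 + (f 9 + (f 10 + (f 11 + 0))))))))))) = _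
  ring

theorem core0 (σ : Fin 12 → Fin 12) (hσ : Function.Injective σ) (h0 : σ 0 = 4) (hNC : NC σ) :
    4 ≤ (Finset.univ.filter fun i : Fin 12 => D (σ (i - 1)) (σ i) (σ (i + 1)) < 0).card := by
  have hY : ∀ i j : Fin 12, i ≠ j ∧ j + 1 ≠ i + 1 ∧ i ≠ i + 1 →
      (YR (σ i)).testBit (144 * (σ (i + 1) : ℕ) + (12 * (σ j : ℕ) + (σ (j + 1) : ℕ))) = true :=
    fun i j h => fct3 (σ i) (σ (i + 1)) (σ j) (σ (j + 1)) (hσ.ne h.2.2) (hσ.ne h.2.1) (hNC i j h.1)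
  have hT : ∀ i : Fin 12, i + 2 ≠ 0 ∧ i ≠ i + 1 ∧ i + 1 ≠ i + 2 ∧ i ≠ i + 2 →
      TOK (σ i) (σ (i + 1)) (σ (i + 2)) :=
    fun i h => fct2 (σ i) (σ (i + 1)) (σ (i + 2)) (hσ.ne h.2.1) (hσ.ne h.2.2.1) (hσ.ne h.2.2.2)
      (by rw [← h0]; exact hσ.ne h.1)
  have h1 : σ 1 ≠ 4 := by
    rw [← h0]
    exact hσ.ne (by decide)
  have h4 : (4 : ℕ) = ((σ 0 : Fin 12) : ℕ) := by rw [h0]; rfl
  have hst := st_all (σ 1) h1
  rw [st_eq, h4] at hst
  have hok : Ok (σ 0) (σ 0) ((σ 1 : ℕ) :: [(σ 2 : ℕ), (σ 3 : ℕ), (σ 4 : ℕ), (σ 5 : ℕ), (σ 6 : ℕ), (σ 7 : ℕ), (σ 8 : ℕ), (σ 9 : ℕ), (σ 10 : ℕ), (σ 11 : ℕ)]) := by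
    simp only [Ok, edg, List.forall_mem_cons, List.not_mem_nil, false_implies, implies_true,
      and_true]
    exact ⟨⟨hY 0 1 (by decide), hY 0 2 (by decide), hY 0 3 (by decide), hY 0 4 (by decide), hY 0 5 (by decide), hY 0 6 (by decide), hY 0 7 (by decide), hY 0 8 (by decide), hY 0 9 (by decide), hY 0 10 (by decide), hY 0 11 (by decide)⟩, hT 0 (by decide), ⟨⟨hY 1 2 (by decide), hY 1 3 (by decide), hY 1 4 (by decide), hY 1 5 (by decide), hY 1 6 (by decide), hY 1 7 (by decide), hY 1 8 (by decide), hY 1 9 (by decide), hY 1 10 (by decide), hY 1 11 (by decide)⟩, hT 1 (by decide), ⟨⟨hY 2 3 (by decide), hY 2 4 (by decide), hY 2 5 (by decide), hY 2 6 (by decide), hY 2 7 (by decide), hY 2 8 (by decide), hY 2 9 (by decide), hY 2 10 (by decide), hY 2 11 (by decide)⟩, hT 2 (by decide), ⟨⟨hY 3 4 (by decide), hY 3 5 (by decide), hY 3 6 (by decide), hY 3 7 (by decide), hY 3 8 (by decide),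 hY 3 9 (by decide), hY 3 10 (by decide), hY 3 11 (by decide)⟩, hT 3 (by decide), ⟨⟨hY 4 5 (by decide), hY 4 6 (by decide), hY 4 7 (by decide), hY 4 8 (by decide), hY 4 9 (by decide), hY 4 10 (by decide), hY 4 11 (by decide)⟩, hT 4 (by decide), ⟨⟨hY 5 6 (by decide), hY 5 7 (by decide), hY 5 8 (by decide), hY 5 9 (by decide), hY 5 10 (by decide), hY 5 11 (by decide)⟩, hT 5 (by decide), ⟨⟨hY 6 7 (by decide), hY 6 8 (by decide), hY 6 9 (by decide), hY 6 10 (by decide), hY 6 11 (by decide)⟩, hT 6 (by decide), ⟨⟨hY 7 8 (by decide), hY 7 9 (by decide), hY 7 10 (by decide), hY 7 11 (by decide)⟩, hT 7 (by decide), ⟨⟨hY 8 9 (by decide), hY 8 10 (by decide), hY 8 11 (by decide)⟩, hT 8 (by decide), ⟨⟨hY 9 10 (by decide), hY 9 11 (by decide)⟩, hT 9 (by decide), hY 10 11 (by decide)⟩⟩⟩⟩⟩⟩⟩⟩⟩⟩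
  have key := snd (σ 0) (σ 1) (σ 0).2 200 (2 ^ (σ 1 : ℕ)) (σ 0)
    0xffffffffffffffffffffffffffffffffffff 0 11 (σ 1) [(σ 2 : ℕ), (σ 3 : ℕ), (σ 4 : ℕ), (σ 5 : ℕ), (σ 6 : ℕ), (σ 7 : ℕ), (σ 8 : ℕ), (σ 9 : ℕ), (σ 10 : ℕ), (σ 11 : ℕ)] hst rfl (Nat.testBit_two_pow_self)
    (by
      simp only [edg, List.forall_mem_cons, List.not_mem_nil, false_implies, implies_true, and_true]
      refine ⟨?_, ?_, ?_, ?_, ?_, ?_, ?_, ?_, ?_, ?_, ?_⟩ <;> exact ones _ (by omega))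
    (by
      simp only [List.forall_mem_cons, List.not_mem_nil, false_implies, implies_true, and_true]
      exact ⟨(σ 1).2, (σ 2).2, (σ 3).2, (σ 4).2, (σ 5).2, (σ 6).2, (σ 7).2, (σ 8).2, (σ 9).2, (σ 10).2, (σ 11).2⟩) hok
  have hr : ∀ i : Fin 12, i - 1 ≠ i ∧ i ≠ i + 1 ∧ i - 1 ≠ i + 1 →
      (if D (σ (i - 1)) (σ i) (σ (i + 1)) < 0 then 1 else 0) = rtb (σ (i - 1)) (σ i) (σ (i + 1)) := by
    intro i h
    rcases fct1 (σ (i - 1)) (σ i) (σ (i + 1)) (hσ.ne h.1) (hσ.ne h.2.1) (hσ.ne h.2.2) with h | h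
    · rw [if_neg (by linarith [h.2]), h.1]
    · rw [if_pos h.2, h.1]
  rw [Finset.card_filter, Finset.sum_congr rfl (fun i _ => hr i (by revert i; decide)), sum12]
  rw [zero_add] at key
  exact key

end Pool.Agent.D0H86.RF
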