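import Pool.Agent.D0H86.RF.Snd

/-!
# The points and the correctness of the tables
-/

set_option autoImplicit false
set_option linter.all false

namespace Pool.Agent.D0H86.RF

/-- The first coordinates of the points. -/
def PX (i : ℕ) : ℤ := [11, 7, 17, 20, 21, 35, 13, 8, 16, 10, 0, 17].getD i 0

/-- The second coordinates of the points. -/
def PY (i : ℕ) : ℤ := [3, 7, 15, 5, 0, 20, 2, 3, 2, 5, 19, 4].getD i 0

/-- The orientation determinant. -/
def D (a b c : ℕ) : ℤ := (PX b - PX a) * (PY c - PY a) - (PY b - PY a) * (PX c - PX a)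

theorem fct1 : ∀ c q z : Fin 12, c ≠ q → q ≠ z → c ≠ z →
    (rtb c q z = 0 ∧ 0 < D c q z) ∨ (rtb c q z = 1 ∧ D c q z < 0) := by
  decide +kernel

theorem fct2 : ∀ c q z : Fin 12, c ≠ q → q ≠ z → c ≠ z → z ≠ 4 →
    (rtb c q z = 0 ∧ (TR c).testBit (24 * q + z) = true) ∨
      (rtb c q z = 1 ∧ (TR c).testBit (24 * q + 12 + z) = true) := by
  decide +kernel

theorem fct3 : ∀ c q x y : Fin 12, c ≠ q → y ≠ q →
    ¬ (D c q x * D c q y < 0 ∧ D x y c * D x y q < 0) →
    (YR c).testBit (144 * q + (12 * x + y)) = true := by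
  decide +kernel

end Pool.Agent.D0H86.RF
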