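import Mathlib

/-!
# Segments in the plane
-/

set_option autoImplicit false
set_option linter.all false

namespace Pool.Agent.D0H86.RF

/-- the orientation determinant -/
def dt (a b c : ℝ × ℝ) : ℝ := (b.1 - a.1) * (c.2 - a.2) - (b.2 - a.2) * (c.1 - a.1)

theorem dt_comb (a b c d : ℝ × ℝ) (s t : ℝ) (h : s + t = 1) :
    dt a b (s • c + t • d) = s * dt a b c + t * dt a b d := by
  have hs : s = 1 - t := by linarith
  subst hs
  simp only [dt, Prod.fst_add, Prod.snd_add, Prod.smul_fst, Prod.smul_snd, smul_eq_mul]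
  ring

theorem dt_left (a b : ℝ × ℝ) : dt a b a = 0 := by simp [dt]

theorem dt_right (a b : ℝ × ℝ) : dt a b b = 0 := by
  simp only [dt]
  ring

theorem dt_seg {a b p : ℝ × ℝ} (h : p ∈ segment ℝ a b) : dt a b p = 0 := by
  obtain ⟨s, t, -, -, hst, rfl⟩ := h
  rw [dt_comb a b a b s t hst, dt_left, dt_right]
  ring

/-- a segment on one side of the line through another segment -/
theorem seg_disj {a b c d : ℝ × ℝ} (h : 0 < dt a b c * dt a b d) {p : ℝ × ℝ}
    (h1 : p ∈ segment ℝ a b) (h2 : p ∈ segment ℝ c d) : False := by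
  have h3 := dt_seg h1
  obtain ⟨s, t, hs, ht, hst, rfl⟩ := h2
  rw [dt_comb a b c d s t hst] at h3
  rcases pos_and_pos_or_neg_and_neg_of_mul_pos h with ⟨h4, h5⟩ | ⟨h4, h5⟩
  · nlinarith [mul_nonneg hs h4.le, mul_nonneg ht h5.le]
  · nlinarith [mul_nonneg hs (neg_pos.mpr h4).le, mul_nonneg ht (neg_pos.mpr h5).le]

/-- consecutive edges -/
theorem seg_adj {a b c : ℝ × ℝ} (h : dt a b c ≠ 0) {p : ℝ × ℝ}
    (h1 : p ∈ segment ℝ a b) (h2 : p ∈ segment ℝ b c) : p = b := by
  have h3 := dt_seg h1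
  obtain ⟨s, t, hs, ht, hst, rfl⟩ := h2
  rw [dt_comb a b b c s t hst, dt_right, mul_zero, zero_add] at h3
  have ht0 : t = 0 := by
    rcases mul_eq_zero.mp h3 with h4 | h4
    · exact h4
    · exact absurd h4 h
  have hs1 : s = 1 := by linarith
  rw [ht0, hs1, one_smul, zero_smul, add_zero]

/-- crossing segments meet in a point that is not an endpoint -/
theorem seg_cross {a b c d : ℝ × ℝ} (h1 : dt a b c * dt a b d < 0) (h2 : dt c d a * dt c d b < 0) :
    ∃ p, p ∈ segment ℝ a b ∧ p ∈ segment ℝ c d ∧ p ≠ a ∧ p ≠ b := by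
  set A := dt c d a with hA
  set B := dt c d b with hB
  set C := dt a b c with hC
  set E := dt a b d with hE
  have hABCE : C - E = -(A - B) := by
    rw [hA, hB, hC, hE]
    simp only [dt]
    ring
  have hAB : A - B ≠ 0 := by
    intro h
    have h3 : A = B := by linarith
    rw [h3] at h2
    nlinarith [mul_self_nonneg B]
  have hA0 : A ≠ 0 := by
    intro h
    rw [h, zero_mul] at h2
    exact lt_irrefl _ h2
  have hB0 : B ≠ 0 := by
    intro h
    rw [h, mul_zero] at h2
    exact lt_irrefl _ h2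
  have key1 : ∀ x y : ℝ, x * y < 0 → 0 ≤ x / (x - y) ∧ 0 ≤ -y / (x - y) := by
    intro x y hxy
    rcases mul_neg_iff.mp hxy with ⟨hx, hy⟩ | ⟨hx, hy⟩
    · exact ⟨div_nonneg hx.le (by linarith), div_nonneg (by linarith) (by linarith)⟩
    · exact ⟨div_nonneg_of_nonpos hx.le (by linarith), div_nonneg_of_nonpos (by linarith) (by linarith)⟩
  have hp : (-B / (A - B)) • a + (A / (A - B)) • b = (-E / (C - E)) • c + (C / (C - E)) • d := by
    have hCE : C - E ≠ 0 := by
      rw [hABCE]
      exact neg_ne_zero.mpr hAB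
    apply Prod.ext
    · simp only [Prod.fst_add, Prod.smul_fst, smul_eq_mul]
      rw [hABCE]
      field_simp
      rw [hA, hB, hC, hE]
      simp only [dt]
      ring
    · simp only [Prod.snd_add, Prod.smul_snd, smul_eq_mul]
      rw [hABCE]
      field_simp
      rw [hA, hB, hC, hE]
      simp only [dt]
      ring
  refine ⟨(-B / (A - B)) • a + (A / (A - B)) • b, ⟨_, _, (key1 A B h2).2, (key1 A B h2).1, ?_, rfl⟩,
    ?_, ?_, ?_⟩
  · field_simp
    ring
  · rw [hp]
    refine ⟨_, _, (key1 C E h1).2, (key1 C E h1).1, ?_, rfl⟩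
    have hCE : C - E ≠ 0 := by
      rw [hABCE]
      exact neg_ne_zero.mpr hAB
    field_simp
    ring
  · intro h
    have h3 : dt c d ((-B / (A - B)) • a + (A / (A - B)) • b) = 0 := by
      rw [dt_comb _ _ _ _ _ _ (by field_simp; ring), ← hA, ← hB]
      field_simp
      ring
    rw [h] at h3
    exact hA0 h3
  · intro h
    have h3 : dt c d ((-B / (A - B)) • a + (A / (A - B)) • b) = 0 := by
      rw [dt_comb _ _ _ _ _ _ (by field_simp; ring), ← hA, ← hB]
      field_simp
      ring
    rw [h] at h3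
    exact hB0 h3

end Pool.Agent.D0H86.RF
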