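import Pool.Agent.D0H86.RF.Tab

/-!
# Soundness of the search
-/

set_option autoImplicit false
set_option linter.all false

namespace Pool.Agent.D0H86.RF

/-- `1` if the turn at `y` of the path `x, y, z` is a right turn (by the table). -/
def rtb (x y z : ℕ) : ℕ := (RR x >>> (12 * y + z)) % 2

/-- The number of right turns at the points of the list (the point before the first is `c`), and at
the start `s`, where the second point of the polygon is `a`. -/
def T (s a : ℕ) : ℕ → List ℕ → ℕ
  | _, [] => 0
  | c, [q] => rtb c q s + rtb q s a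
  | c, q :: z :: tl => rtb c q z + T s a q (z :: tl)

/-- The edges of the path `q, ..., s`. -/
def edg (s : ℕ) : ℕ → List ℕ → List (ℕ × ℕ)
  | q, [] => [(q, s)]
  | q, z :: tl => (q, z) :: edg s z tl

/-- The tables know the turn at `q` of the path `c, q, z`. -/
def TOK (c q z : ℕ) : Prop :=
  (rtb c q z = 0 ∧ (TR c).testBit (24 * q + z) = true) ∨
    (rtb c q z = 1 ∧ (TR c).testBit (24 * q + 12 + z) = true)

/-- The conditions for the rest of the path. -/
def Ok (s : ℕ) : ℕ → List ℕ → Prop
  | _, [] => True
  | c, [q] => (∀ e ∈ edg s q [], (YR c).testBit (144 * q + (12 * e.1 + e.2)) = true)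
  | c, q :: z :: tl => (∀ e ∈ edg s q (z :: tl), (YR c).testBit (144 * q + (12 * e.1 + e.2)) = true) ∧
      TOK c q z ∧ Ok s q (z :: tl)

theorem loop_succ (s a n m c yr tr av cnt left : ℕ) :
    loop s a (n + 1) m c yr tr av cnt left =
      cond (Nat.beq m 0) true
        ((cond (Nat.beq left 1)
            (cond (Nat.beq (((((av &&& (yr >>> (144 * Nat.log2 m))) >>> (12 * Nat.log2 m)) % 4096) >>> s) % 2) 0) true
              (Nat.ble 4 (cnt + ((RR c >>> (12 * Nat.log2 m + s)) % 2 + (RR (Nat.log2 m) >>> (12 * s + a)) % 2))))
            (loop s a n ((((av &&& (yr >>> (144 * Nat.log2 m))) >>> (12 * Nat.log2 m)) % 4096) &&&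
                (tr >>> (24 * Nat.log2 m))) (Nat.log2 m) (YR (Nat.log2 m)) (TR (Nat.log2 m))
                (av &&& (yr >>> (144 * Nat.log2 m))) cnt (left - 1) &&
              (cond (Nat.ble 3 cnt) true
                (loop s a n ((((av &&& (yr >>> (144 * Nat.log2 m))) >>> (12 * Nat.log2 m)) % 4096) &&&
                  (tr >>> (24 * Nat.log2 m) >>> 12)) (Nat.log2 m) (YR (Nat.log2 m)) (TR (Nat.log2 m))
                  (av &&& (yr >>> (144 * Nat.log2 m))) (cnt + 1) (left - 1)))))
          && loop s a n (m - 2 ^ Nat.log2 m) c yr tr av cnt left) := rfl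

theorem testBit_rest {m q : ℕ} (h : m.testBit q = true) (hq : q ≠ Nat.log2 m) :
    (m - 2 ^ Nat.log2 m).testBit q = true := by
  have hm : m ≠ 0 := by
    rintro rfl
    simp at h
  have h1 : 2 ^ Nat.log2 m ≤ m := Nat.log2_self_le hm
  have h2 : m < 2 ^ (Nat.log2 m + 1) := Nat.lt_log2_self
  have hlt : q < Nat.log2 m := by
    by_contra hc
    have h3 : Nat.log2 m + 1 ≤ q := by omega
    have h4 : m < 2 ^ q := lt_of_lt_of_le h2 (Nat.pow_le_pow_right (by norm_num) h3)
    rw [Nat.testBit_eq_false_of_lt h4] at h
    exact Bool.false_ne_true h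
  have h5 : m = 2 ^ Nat.log2 m + (m - 2 ^ Nat.log2 m) := by omega
  rw [h5] at h
  have h6 : (2 ^ Nat.log2 m + (m - 2 ^ Nat.log2 m)).testBit q = (m - 2 ^ Nat.log2 m).testBit q := by
    rw [Nat.testBit_two_pow_add_gt hlt]
  rw [← h6]
  exact h

theorem testBit_mask {av yr q x y : ℕ} (h1 : av.testBit (12 * x + y) = true)
    (h2 : yr.testBit (144 * q + (12 * x + y)) = true) :
    (av &&& (yr >>> (144 * q))).testBit (12 * x + y) = true := by
  rw [Nat.testBit_land, h1, Nat.testBit_shiftRight, h2]
  rfl

theorem testBit_w {av q z : ℕ} (hz : z < 12) (h : av.testBit (12 * q + z) = true) :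
    ((av >>> (12 * q)) % 4096).testBit z = true := by
  rw [show (4096 : ℕ) = 2 ^ 12 by norm_num, Nat.testBit_mod_two_pow, Nat.testBit_shiftRight, h]
  simp [hz]

theorem snd (s a : ℕ) (hs : s < 12) (n : ℕ) : ∀ (m c av cnt left q : ℕ) (tl : List ℕ),
    loop s a n m c (YR c) (TR c) av cnt left = true → (q :: tl).length = left →
    m.testBit q = true → (∀ e ∈ edg s q tl, av.testBit (12 * e.1 + e.2) = true) →
    (∀ x ∈ q :: tl, x < 12) → Ok s c (q :: tl) → 4 ≤ cnt + T s a c (q :: tl) := by
  induction n with
  | zero =>
    intro m c av cnt left q tl h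
    exact absurd h (by simp [loop])
  | succ n ih =>
    intro m c av cnt left q tl h hl hm hav hlt hok
    rw [loop_succ] at h
    have hm0 : m ≠ 0 := by
      rintro rfl
      simp at hm
    have hm1 : Nat.beq m 0 = false := by
      rw [Bool.eq_false_iff]
      intro hb
      exact hm0 (Nat.eq_of_beq_eq_true hb)
    rw [hm1, cond_false, Bool.and_eq_true] at h
    by_cases hq : q = Nat.log2 m
    · rw [← hq] at h
      have h1 := h.1
      cases tl with
      | nil =>
        have hl1 : left = 1 := by simpa using hl.symm
        have hY : (YR c).testBit (144 * q + (12 * q + s)) = true := by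
          have := hok (q, s) (by simp [edg])
          simpa using this
        have hA : av.testBit (12 * q + s) = true := by
          have := hav (q, s) (by simp [edg])
          simpa using this
        have hw := testBit_w hs (testBit_mask hA hY)
        rw [hl1, show Nat.beq 1 1 = true from rfl, cond_true] at h1
        have hw2 : ((((av &&& (YR c >>> (144 * q))) >>> (12 * q)) % 4096) >>> s) % 2 ≠ 0 := by
          have h3 := hw
          rw [Nat.testBit_eq_decide_div_mod_eq, decide_eq_true_eq] at h3
          rw [Nat.shiftRight_eq_div_pow, h3]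
          norm_num
        have hw3 : Nat.beq (((((av &&& (YR c >>> (144 * q))) >>> (12 * q)) % 4096) >>> s) % 2) 0 = false := by
          rw [Bool.eq_false_iff]
          intro hb
          exact hw2 (Nat.eq_of_beq_eq_true hb)
        rw [hw3, cond_false] at h1
        have h4 := Nat.le_of_ble_eq_true h1
        exact h4
      | cons z tl =>
        have hl1 : Nat.beq left 1 = false := by
          rw [Bool.eq_false_iff]
          intro hb
          have := Nat.eq_of_beq_eq_true hb
          rw [← hl] at this
          simp at this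
        rw [hl1, cond_false, Bool.and_eq_true] at h1
        obtain ⟨hY, hT, hok'⟩ := hok
        have hav' : ∀ e ∈ edg s q (z :: tl), (av &&& (YR c >>> (144 * q))).testBit (12 * e.1 + e.2) = true :=
          fun e he => testBit_mask (hav e he) (hY e he)
        have hz : z < 12 := hlt z (by simp)
        have hw := testBit_w hz (hav' (q, z) (by simp [edg]))
        have hlen : (z :: tl).length = left - 1 := by
          rw [← hl]
          simp
        have hlt' : ∀ x ∈ z :: tl, x < 12 := fun x hx => hlt x (List.mem_cons_of_mem _ hx)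
        have hav'' : ∀ e ∈ edg s z tl, (av &&& (YR c >>> (144 * q))).testBit (12 * e.1 + e.2) = true :=
          fun e he => hav' e (by simp [edg, he])
        rcases hT with ⟨hr, ht⟩ | ⟨hr, ht⟩
        · have h5 := ih _ q _ cnt (left - 1) z tl h1.1 hlen (by
            rw [Nat.testBit_land, hw, Nat.testBit_shiftRight, ht]
            rfl) hav'' hlt' hok'
          show 4 ≤ cnt + (rtb c q z + T s a q (z :: tl))
          omega
        · by_cases hc : 3 ≤ cnt
          · show 4 ≤ cnt + (rtb c q z + T s a q (z :: tl))
            omega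
          · have h6 : Nat.ble 3 cnt = false := by
              rw [Bool.eq_false_iff]
              intro hb
              exact hc (Nat.le_of_ble_eq_true hb)
            rw [h6, cond_false] at h1
            have h5 := ih _ q _ (cnt + 1) (left - 1) z tl h1.2 hlen (by
              rw [Nat.testBit_land, hw, Nat.testBit_shiftRight, Nat.testBit_shiftRight,
                show 24 * q + (12 + z) = 24 * q + 12 + z by ring, ht]
              rfl) hav'' hlt' hok'
            show 4 ≤ cnt + (rtb c q z + T s a q (z :: tl))
            omega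
    · exact ih _ c av cnt left q tl h.2 hl (testBit_rest hm hq) hav hlt hok

end Pool.Agent.D0H86.RF
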